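import Pool.Agent.Q297.SpI

/-!
Regularity of the Brownian span set (MP_367e1f_pr): almost surely the span set of Brownian motion
on `[0,1]` is the closure of its interior.
-/

open MeasureTheory ProbabilityTheory Set
open scoped NNReal

namespace Pool.Agent.Results.MP_367e1f_pr.SpanRegular

/-- the span set `{t - s : 0 ≤ s ≤ t ≤ 1, f s = f t}` of a path on `[0,1]` -/
def spanSet (f : ℝ≥0 → ℝ) : Set ℝ :=
  {h | ∃ s t : ℝ≥0, s ≤ t ∧ t ≤ 1 ∧ f s = f t ∧ h = (t : ℝ) - s}

/-- **Theorem.** For every Brownian motion, almost surely the span set equals the closure (in the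
real line) of its interior (in the real line). -/
theorem result {Ω : Type*} [MeasurableSpace Ω] (P : Measure Ω) (B : ℝ≥0 → Ω → ℝ)
    (hB : IsBrownianReal B P) :
    ∀ᵐ ω ∂P, spanSet (fun t => B t ω) = closure (interior (spanSet (fun t => B t ω))) := by
  filter_upwards [Q297.Spn.exists_nice hB] with ω hω
  obtain ⟨x, hx, e⟩ := hω
  rw [e]
  exact Q297.Spn.nice_regular hx

end Pool.Agent.Results.MP_367e1f_pr.SpanRegular
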